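import Mathlib
import Pool.Agent.H.MP_5f9601_gt.helper41.Maps

/-! Inverse sequences of lens spaces with inessential covering spheres and linear growth. -/

set_option autoImplicit false

namespace Pool.Agent.Results.MP_5f9601_gt.LinearGrowth

open Set Topology

/-- The unit sphere of `ℂ^n`, of real dimension `2n - 1`. -/
def Sphere (n : ℕ) : Type := Metric.sphere (0 : EuclideanSpace ℂ (Fin n)) 1

/-- The subspace topology. -/
instance (n : ℕ) : TopologicalSpace (Sphere n) :=
  inferInstanceAs (TopologicalSpace (Metric.sphere (0 : EuclideanSpace ℂ (Fin n)) 1))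

/-- `y` is obtained from `x` by a power of the rotation `z ↦ exp(2πi/m) z`. -/
def rotated (n m : ℕ) (x y : Sphere n) : Prop :=
  ∃ j : ℕ, y.1 = Complex.exp (2 * Real.pi * Complex.I / m) ^ j • x.1

/-- The lens space `L^n(m)`, the orbit space of the unit sphere of `ℂ^n` under the rotations. -/
def Lens (n m : ℕ) : Type := Quot (rotated n m)

/-- The quotient topology. -/
instance (n m : ℕ) : TopologicalSpace (Lens n m) :=
  inferInstanceAs (TopologicalSpace (Quot (rotated n m)))

/-- The covering projection of the sphere onto the lens space. -/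
def proj (n m : ℕ) (x : Sphere n) : Lens n m := Quot.mk _ x

/-- A continuous map is essential if it is surjective on fundamental groups (at every base
point). -/
def Essential {X Y : Type} [TopologicalSpace X] [TopologicalSpace Y] (q : C(X, Y)) : Prop :=
  ∀ x : X, Function.Surjective (FundamentalGroup.map q x)

/-- The sequences of continuous maps `q_i : L^(n_(i+1))(p^(k_(i+1))) → L^(n_i)(p^(k_i))`. -/
def LensMaps (p : ℕ) (n k : ℕ → ℕ) : Type :=
  ∀ i : ℕ, C(Lens (n (i + 1)) (p ^ k (i + 1)), Lens (n i) (p ^ k i))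

/-- The sequences of continuous maps `f_i : S^(2 n_(i+1) - 1) → S^(2 n_i - 1)`. -/
def SphereMaps (n : ℕ → ℕ) : Type := ∀ i : ℕ, C(Sphere (n (i + 1)), Sphere (n i))

/-- The maps `f_i` of spheres are lifts of the maps `q_i` of lens spaces. -/
def Covers {p : ℕ} {n k : ℕ → ℕ} (q : LensMaps p n k) (f : SphereMaps n) : Prop :=
  ∀ (i : ℕ) (x : Sphere (n (i + 1))), q i (proj _ _ x) = proj _ _ (f i x)

/-- The composite `f_i ∘ f_(i+1) ∘ ... ∘ f_(i+j-1)` of the maps of a sequence of spheres. -/
noncomputable def composite {n : ℕ → ℕ} (f : SphereMaps n) (i : ℕ) : ∀ j : ℕ, C(Sphere (n (i + j)), Sphere (n i))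
  | 0 => ContinuousMap.id _
  | j + 1 => (composite f i j).comp (f (i + j))

/-- A sequence of maps of spheres is inessential if for every `i` there is `j ≥ 1` such that the
composite of `j` maps, starting at level `i`, is null-homotopic. -/
def Inessential {n : ℕ → ℕ} (f : SphereMaps n) : Prop :=
  ∀ i : ℕ, ∃ j : ℕ, 1 ≤ j ∧ (composite f i j).Nullhomotopic

open Pool.Agent.H.MP_5f9601_gt (Sp zet lrel incl incl_null lens_covering mk_eq_iff equiv_pow
  lens_surj sp_pathConnected incl_apply_last incl_apply_castSucc zet_prim)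

lemma rotated_eq (n m : ℕ) : rotated n m = lrel m n := rfl

/-- the rotation of the sphere by a power of the root of unity -/
noncomputable def rot (n m : ℕ) (hm : m ≠ 0) (j : ℕ) : C(Sp n, Sp n) where
  toFun x := ⟨zet m ^ j • (x : EuclideanSpace ℂ (Fin n)), by
    rw [mem_sphere_zero_iff_norm, norm_smul, norm_pow, (zet_prim hm).norm'_eq_one hm, one_pow,
      one_mul]
    exact mem_sphere_zero_iff_norm.1 x.2⟩
  continuous_toFun := by
    apply Continuous.subtype_mk
    fun_prop

/-- Two lifts of the same map differ by a rotation; hence one null-homotopic lift makes all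
lifts null-homotopic. -/
lemma lifts_null {n' m' n m : ℕ} (hm : m ≠ 0) (hn' : 1 ≤ n')
    (q : C(Quot (lrel m' n'), Quot (lrel m n))) (f g : C(Sp n', Sp n))
    (hf : ∀ x, q (Quot.mk _ x) = Quot.mk _ (f x)) (hg : ∀ x, q (Quot.mk _ x) = Quot.mk _ (g x))
    (h : f.Nullhomotopic) : g.Nullhomotopic := by
  have : NeZero m := ⟨hm⟩
  have := sp_pathConnected hn'
  obtain ⟨x0⟩ : Nonempty (Sp n') := inferInstance
  have key : ∀ x, Quot.mk (lrel m n) (f x) = Quot.mk (lrel m n) (g x) := by
    intro x
    rw [← hf x, ← hg x]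
  obtain ⟨j, hj⟩ := (mk_eq_iff _ _).1 (key x0)
  have cov := (lens_covering (m := m) (n := n)).isCoveringMap
  have e : (⇑g : Sp n' → Sp n) = ⇑((rot n m hm j).comp f) := by
    refine cov.eq_of_comp_eq g.continuous ((rot n m hm j).comp f).continuous ?_ x0 ?_
    · funext x
      change Quot.mk (lrel m n) (g x) = Quot.mk (lrel m n) (rot n m hm j (f x))
      rw [← key x]
      exact Quot.sound ⟨j, rfl⟩
    · exact Subtype.ext hj
  have e2 : g = (rot n m hm j).comp f := DFunLike.coe_injective e
  rw [e2]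
  exact h.comp_right _

/-- **Main theorem.** For every odd prime `p` there is a constant `c` such that for every `D`
there is an inverse sequence of lens spaces `L^(n_i)(p^(i+1))`, `n_i = D p^(i+1) + 2 i + c`, with
essential maps, which has a sequence of lifts to the spheres, and such that in every sequence of
lifts each single map is null-homotopic; in particular the sequence of spheres is inessential. -/
theorem result (p : ℕ) (hp : p.Prime) (hp2 : p ≠ 2) :
    ∃ c : ℕ, 2 ≤ c ∧ ∀ D : ℕ,
      ∃ q : LensMaps p (fun i => D * p ^ (i + 1) + 2 * i + c) (fun i => i + 1),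
        (∀ i, Essential (q i)) ∧ (∃ f, Covers q f) ∧
          ∀ f, Covers q f → Inessential f ∧ ∀ i, (f i).Nullhomotopic := by
  obtain ⟨c, hc2, hc⟩ := Pool.Agent.H.MP_5f9601_gt.helper41.exists_maps hp hp2
  refine ⟨c, hc2, fun D => ?_⟩
  set dim : ℕ → ℕ := fun i => D * p ^ (i + 1) + 2 * i + c with hdim
  have hc' : ∀ i, Pool.Agent.H.MP_5f9601_gt.EqMap p (i + 1) (dim (i + 1) + 1) (dim i) :=
    fun i => hc D i
  have hn2 : ∀ i, 2 ≤ dim i := by
    intro i
    change 2 ≤ D * p ^ (i + 1) + 2 * i + c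
    omega
  have hpos : ∀ i, p ^ i ≠ 0 := fun i => pow_ne_zero _ hp.ne_zero
  choose F hF using hc'
  let f : ∀ i : ℕ, C(Sp (dim (i + 1)), Sp (dim i)) := fun i => (F i).comp (incl (dim (i + 1)))
  have hf : ∀ (i : ℕ) (x y : Sp (dim (i + 1))),
      (y : EuclideanSpace ℂ (Fin (dim (i + 1)))) = zet (p ^ (i + 2)) • (x : _) →
      (f i y : EuclideanSpace ℂ (Fin (dim i))) = zet (p ^ (i + 1)) • (f i x : _) := by
    intro i x y h
    apply hF i
    ext j
    refine Fin.lastCases ?_ (fun j => ?_) j
    · rw [PiLp.smul_apply, incl_apply_last, incl_apply_last, smul_zero]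
    · rw [PiLp.smul_apply, incl_apply_castSucc, incl_apply_castSucc, h, PiLp.smul_apply]
  have hnull : ∀ i, (f i).Nullhomotopic := fun i => (incl_null (dim (i + 1))).comp_right (F i)
  let q₀ : ∀ i : ℕ, C(Quot (lrel (p ^ (i + 2)) (dim (i + 1))), Quot (lrel (p ^ (i + 1)) (dim i))) :=
    fun i => ⟨Quot.lift (fun x => Quot.mk _ (f i x)) (fun x y ⟨j, hj⟩ =>
      Quot.sound ⟨j, equiv_pow (hpos _) (f i) (hf i) j x y hj⟩),
      continuous_quot_lift _ (continuous_quot_mk.comp (f i).continuous)⟩
  have hq₀ : ∀ i x, q₀ i (Quot.mk _ x) = Quot.mk _ (f i x) := fun i x => rfl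
  have hall : ∀ i (g : C(Sp (dim (i + 1)), Sp (dim i))),
      (∀ x, q₀ i (Quot.mk _ x) = Quot.mk _ (g x)) → g.Nullhomotopic := fun i g hg =>
    lifts_null (hpos _) (by have := hn2 (i + 1); omega) (q₀ i) (f i) g (hq₀ i) hg (hnull i)
  have hsurj : ∀ i (x : Quot (lrel (p ^ (i + 2)) (dim (i + 1)))) (δ : Path (q₀ i x) (q₀ i x)),
      ∃ γ : Path x x, (γ.map (q₀ i).continuous).Homotopic δ := by
    intro i x δ
    have : NeZero (p ^ (i + 1)) := ⟨hpos _⟩
    have : NeZero (p ^ (i + 2)) := ⟨hpos _⟩
    exact lens_surj (hn2 i) (by have := hn2 (i + 1); omega) (f i) (hf i) (q₀ i) (hq₀ i) x δ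
  refine ⟨q₀, ?_, ⟨f, hq₀⟩, ?_⟩
  · intro i x δ
    obtain ⟨d, rfl⟩ := Quotient.exists_rep δ
    obtain ⟨γ, hγ⟩ := hsurj i x d
    exact ⟨Quotient.mk _ γ, Quotient.sound hγ⟩
  · intro g hg
    refine ⟨fun i => ⟨1, le_rfl, ?_⟩, fun i => hall i (g i) (hg i)⟩
    have h1 : composite g i 1 = g i := by
      ext x
      rfl
    rw [h1]
    exact hall i (g i) (hg i)

end Pool.Agent.Results.MP_5f9601_gt.LinearGrowth
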